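import Pool.Agent.Lib.MP_6205a3_nt.B66.LowData
import Pool.Agent.Lib.MP_6205a3_nt.B66.Sym

/-!
# A lower bound for the integer transfinite diameter of `[0, 1]`

`m_n([0, 1]) ≥ 0.4223 ^ n` for every `n`, hence `τ_ℤ([0, 1]) ≥ 0.4223`.
-/

namespace Pool.Agent.Results.MP_6205a3_nt.LowerBound

open IntCheb Filter Topology Polynomial

theorem result :
    (∀ n : ℕ, (0.4223 : ℝ) ^ n ≤ chebMin 0 1 n) ∧
    ∃ τ : ℝ, Tendsto (fun n : ℕ => chebMin 0 1 n ^ ((1 : ℝ) / n)) atTop (𝓝 τ) ∧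
      (0.4223 : ℝ) ≤ τ := by
  have h1 : ∀ n : ℕ, (0.4223 : ℝ) ^ n ≤ chebMin 0 1 n := by
    refine of_quarter (by norm_num) (by norm_num) ?_
    intro R hR B hB
    have h := Cert.low_quarter R hR B hB
    have e : ((4223 : ℝ) / 10000) = 0.4223 := by norm_num
    rwa [e] at h
  refine ⟨h1, ?_⟩
  obtain ⟨τ, hτ0, hτ, -⟩ := chebMin_bounds (a := 0) (b := 1) (by norm_num) (by norm_num)
  refine ⟨τ, hτ, ge_of_tendsto hτ ?_⟩
  filter_upwards [eventually_ge_atTop 1] with n hn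
  have hn0 : (0 : ℝ) < n := by exact_mod_cast hn
  calc (0.4223 : ℝ) = ((0.4223 : ℝ) ^ n) ^ ((1 : ℝ) / n) := by
        rw [← Real.rpow_natCast, ← Real.rpow_mul (by norm_num)]
        have : (n : ℝ) * (1 / n) = 1 := by field_simp
        rw [this, Real.rpow_one]
    _ ≤ chebMin 0 1 n ^ ((1 : ℝ) / n) :=
        Real.rpow_le_rpow (by positivity) (h1 n) (by positivity)

end Pool.Agent.Results.MP_6205a3_nt.LowerBound
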