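import Pool.Agent.Lib.MP_6205a3_nt.Attain

/-!
# The integer Chebyshev numbers equal `τ_ℤ(E)^n` up to a polynomial factor

For every interval `E = [a, b]` with `0 < b - a ≤ 4` and every `n ≥ 1`:
`τ_ℤ(E)^n ≤ m_n(E) ≤ (18 / (b - a)) n^(7/2) τ_ℤ(E)^n`.
-/

namespace Pool.Agent.Results.MP_6205a3_nt.PolynomialGrowthGap

open IntCheb Filter Topology Polynomial

theorem result (a b : ℝ) (hab : a < b) (h4 : b - a ≤ 4) :
    (∀ n : ℕ, IsLeast {t : ℝ | ∃ P : ℤ[X], P ≠ 0 ∧ P.natDegree ≤ n ∧ supNorm a b P = t}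
      (chebMin a b n)) ∧
    ∃ τ : ℝ, 0 < τ ∧ Tendsto (fun n : ℕ => chebMin a b n ^ ((1 : ℝ) / n)) atTop (𝓝 τ) ∧
      ∀ n : ℕ, 1 ≤ n → τ ^ n ≤ chebMin a b n ∧
        chebMin a b n ≤ 18 / (b - a) * (n : ℝ) ^ ((7 : ℝ) / 2) * τ ^ n :=
  ⟨fun n => isLeast_chebMin hab n, chebMin_bounds hab h4⟩

end Pool.Agent.Results.MP_6205a3_nt.PolynomialGrowthGap
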