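import Pool.Agent.Lib.MP_6205a3_nt.B66.UpFinal

/-!
# An upper bound for the integer transfinite diameter of `[0, 1]`

`τ_ℤ([0, 1]) ≤ 0.4225`.
-/

namespace Pool.Agent.Results.MP_6205a3_nt.UpperBound

open IntCheb Filter Topology Polynomial

theorem result :
    ∃ τ : ℝ, Tendsto (fun n : ℕ => chebMin 0 1 n ^ ((1 : ℝ) / n)) atTop (𝓝 τ) ∧
      τ ≤ (0.4225 : ℝ) := by
  obtain ⟨τ, hτ, h⟩ := Up.upper
  refine ⟨τ, hτ, ?_⟩
  refine le_of_sq_le_sq ?_ (by norm_num)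
  refine h.trans (le_of_eq ?_)
  norm_num

end Pool.Agent.Results.MP_6205a3_nt.UpperBound
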